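import Pool.Agent.Lib.Ped8316.Final

/-!
# The class of separable approximately subhomogeneous C*-algebras is not Borel

The definitions used in the statement (irreducible representations, subhomogeneous algebras, ASH
algebras, the space `Γ(H) = B₁(H)^ℕ` and the algebra `C*(γ)`) are in
`Pool/Agent/Lib/Ped8316/Defs.lean`; `IllFounded` is in `Pool/Agent/Lib/Ped8316/DST.lean`.

Idea of the proof. To a set `T` of nodes of the tree `ℕ^{<ω}` an algebra `A_T ⊆ B(ℓ²)` is attached
in a continuous way. It is generated by the matrix units, a permutation unitary `V` all of whose
cycles are finite, and diagonal unitaries almost invariant under the permutation, so it is an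
extension of a commutative C*-algebra by the compact operators.

* If `A_T` is ASH, the bounded irreducible representations of the approximating algebras give an
  integer valued index on the diagonal unitaries of `A_T` (a regularised sum of the winding numbers
  along the cycles of `V`), and the relations between the diagonal generators force these integers
  to produce an infinite branch of `T`.
* If `T` has an infinite branch, the cycles can be grouped in such a way that in every group the
  windings cancel; exchanging the paths at the common points (with slowly varying unitaries)
  conjugates `A_T`, up to compact operators, to a block diagonal commutative algebra, so `A_T` is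
  ASH.
-/

set_option autoImplicit false

open Topology MeasureTheory

namespace Pool.Agent.Results.MP_ed8316_lc.NotBorel

open Pool.Agent.Ped8316

/-- For every separable infinite dimensional Hilbert space `H` the set of all `γ ∈ Γ(H)` such that
`C*(γ)` is ASH is not a Borel subset of `Γ(H) = B₁(H)^ℕ`. -/
theorem result (H : Type) [NormedAddCommGroup H] [InnerProductSpace ℂ H] [CompleteSpace H]
    [TopologicalSpace.SeparableSpace H] (hH : ¬ FiniteDimensional ℂ H) :
    ¬ MeasurableSet[borel (Gam H)] {γ : Gam H | IsASH (CStar γ)} :=
  not_measurableSet_ashSet H hH

end Pool.Agent.Results.MP_ed8316_lc.NotBorel
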